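import Pool.Agent.Q41.SU.Stm1

/-! Project SU (helper41), job F1 (S_amb). -/

set_option autoImplicit false

open Polynomial nonZeroDivisors

namespace Pool.Agent.Q198.SU

universe u

variable {k : Type u} [Field k]

/-- the absolute value at infinity -/
noncomputable def av (k : Type u) [Field k] : AbsoluteValue (RatFunc k) ℝ := by
  classical
  exact
  { toFun := fun x => if x = 0 then 0 else Real.exp (x.intDegree : ℝ)
    map_mul' := by
      intro x y
      by_cases hx : x = 0
      · simp [hx]
      by_cases hy : y = 0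
      · simp [hy]
      simp only [mul_eq_zero, hx, hy, or_self, if_false]
      rw [RatFunc.intDegree_mul hx hy, ← Real.exp_add]
      congr 1
      push_cast
      ring
    nonneg' := by
      intro x
      show 0 ≤ (if x = 0 then (0:ℝ) else Real.exp (x.intDegree : ℝ))
      split_ifs
      · exact le_refl 0
      · exact (Real.exp_pos _).le
    eq_zero' := by
      intro x
      show (if x = 0 then (0:ℝ) else Real.exp (x.intDegree : ℝ)) = 0 ↔ x = 0
      split_ifs with h
      · simp [h]
      · simp [h, (Real.exp_pos _).ne']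
    add_le' := by
      intro x y
      show (if x + y = 0 then (0:ℝ) else Real.exp ((x + y).intDegree : ℝ)) ≤
        (if x = 0 then (0:ℝ) else Real.exp (x.intDegree : ℝ)) +
        (if y = 0 then (0:ℝ) else Real.exp (y.intDegree : ℝ))
      by_cases hx : x = 0
      · simp [hx]
      by_cases hy : y = 0
      · simp [hy]
      by_cases hxy : x + y = 0
      · simp only [hxy, if_true, hx, hy, if_false]
        positivity
      simp only [hx, hy, hxy, if_false]
      have h := RatFunc.intDegree_add_le hy hxy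
      rcases max_choice (x.intDegree) (y.intDegree) with h' | h'
      · rw [h'] at h
        have : Real.exp ((x + y).intDegree : ℝ) ≤ Real.exp (x.intDegree : ℝ) :=
          Real.exp_le_exp.mpr (by exact_mod_cast h)
        have h2 := Real.exp_pos (y.intDegree : ℝ)
        linarith
      · rw [h'] at h
        have : Real.exp ((x + y).intDegree : ℝ) ≤ Real.exp (y.intDegree : ℝ) :=
          Real.exp_le_exp.mpr (by exact_mod_cast h)
        have h2 := Real.exp_pos (x.intDegree : ℝ)
        linarith }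

theorem av_apply {x : RatFunc k} (hx : x ≠ 0) : av k x = Real.exp (x.intDegree : ℝ) := by
  classical
  show (if x = 0 then (0:ℝ) else Real.exp (x.intDegree : ℝ)) = _
  rw [if_neg hx]

theorem av_const {c : k} (hc : c ≠ 0) : av k (algebraMap k (RatFunc k) c) = 1 := by
  have h : algebraMap k (RatFunc k) c ≠ 0 := (_root_.map_ne_zero _).mpr hc
  rw [av_apply h]
  have e : algebraMap k (RatFunc k) c = RatFunc.C c := rfl
  rw [e, RatFunc.intDegree_C]
  simp

/-- the substitution -/
noncomputable def sub (c : k) (Θ : ℕ) : k[X] →ₐ[k] k[X] :=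
  Polynomial.aeval (Polynomial.C c * Polynomial.X ^ Θ)

theorem sub_deg {c : k} (hc : c ≠ 0) {Θ : ℕ} (p : k[X]) :
    (sub c Θ p).natDegree = Θ * p.natDegree := by
  have e : sub c Θ p = p.comp (Polynomial.C c * Polynomial.X ^ Θ) := by
    unfold sub
    rw [Polynomial.comp, Polynomial.aeval_def]
    rfl
  rw [e, Polynomial.natDegree_comp, Polynomial.natDegree_C_mul_X_pow _ _ hc, mul_comm]

theorem sub_ne {c : k} (hc : c ≠ 0) {Θ : ℕ} (hΘ : 1 ≤ Θ) {p : k[X]} (hp : p ≠ 0) :
    sub c Θ p ≠ 0 := by
  by_cases h : p.natDegree = 0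
  · obtain ⟨a, rfl⟩ := Polynomial.natDegree_eq_zero.1 h
    unfold sub
    rw [Polynomial.aeval_C]
    intro h2
    apply hp
    have : a = 0 := by
      have e : algebraMap k k[X] a = Polynomial.C a := rfl
      rw [e] at h2
      exact Polynomial.C_eq_zero.1 h2
    rw [this, Polynomial.C_0]
  · intro h2
    have h3 := sub_deg hc (Θ := Θ) p
    rw [h2, Polynomial.natDegree_zero] at h3
    rcases Nat.mul_eq_zero.1 h3.symm with h4 | h4
    · omega
    · exact h h4

theorem exists_sub {c : k} (hc : c ≠ 0) {Θ : ℕ} (hΘ : 1 ≤ Θ) :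
    ∃ φ : RatFunc k →ₐ[k] RatFunc k, φ RatFunc.X = algebraMap k (RatFunc k) c * RatFunc.X ^ Θ ∧
      ∀ x, av k (φ x) = av k x ^ Θ := by
  have hle : k[X]⁰ ≤ k[X]⁰.comap (sub c Θ) := by
    intro p hp
    rw [Submonoid.mem_comap]
    exact mem_nonZeroDivisors_of_ne_zero (sub_ne hc hΘ (nonZeroDivisors.ne_zero hp))
  have hmap : ∀ p : k[X], RatFunc.mapAlgHom (sub c Θ) hle (algebraMap k[X] (RatFunc k) p) =
      algebraMap k[X] (RatFunc k) (sub c Θ p) := by
    intro p
    have h := RatFunc.map_apply_div (sub c Θ) hle p 1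
    rw [map_one, map_one, div_one] at h
    rw [map_one, div_one] at h
    exact h
  refine ⟨RatFunc.mapAlgHom (sub c Θ) hle, ?_, ?_⟩
  · have h := hmap Polynomial.X
    rw [RatFunc.algebraMap_X] at h
    rw [h]
    unfold sub
    rw [Polynomial.aeval_X, map_mul, map_pow, RatFunc.algebraMap_X]
    rfl
  · intro x
    by_cases hx : x = 0
    · subst hx
      rw [map_zero, map_zero, zero_pow (by omega)]
    · have hx' : RatFunc.mapAlgHom (sub c Θ) hle x ≠ 0 := (_root_.map_ne_zero _).2 hx
      rw [av_apply hx', av_apply hx, ← Real.exp_nat_mul]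
      congr 1
      have hn : x.num ≠ 0 := RatFunc.num_ne_zero hx
      have hd : x.denom ≠ 0 := RatFunc.denom_ne_zero x
      have e1 : x = algebraMap k[X] (RatFunc k) x.num / algebraMap k[X] (RatFunc k) x.denom :=
        (RatFunc.num_div_denom x).symm
      have hn' : algebraMap k[X] (RatFunc k) x.num ≠ 0 := RatFunc.algebraMap_ne_zero hn
      have hd' : algebraMap k[X] (RatFunc k) x.denom ≠ 0 := RatFunc.algebraMap_ne_zero hd
      have hn2 : algebraMap k[X] (RatFunc k) (sub c Θ x.num) ≠ 0 :=
        RatFunc.algebraMap_ne_zero (sub_ne hc hΘ hn)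
      have hd2 : algebraMap k[X] (RatFunc k) (sub c Θ x.denom) ≠ 0 :=
        RatFunc.algebraMap_ne_zero (sub_ne hc hΘ hd)
      have e2 : x.intDegree = (x.num.natDegree : ℤ) - x.denom.natDegree := rfl
      have e3 : RatFunc.mapAlgHom (sub c Θ) hle x =
          algebraMap k[X] (RatFunc k) (sub c Θ x.num) /
            algebraMap k[X] (RatFunc k) (sub c Θ x.denom) := by
        conv_lhs => rw [e1]
        rw [map_div₀, hmap, hmap]
      rw [e3, RatFunc.intDegree_div hn2 hd2, RatFunc.intDegree_polynomial,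
        RatFunc.intDegree_polynomial, sub_deg hc, sub_deg hc, e2]
      push_cast
      ring

theorem ext_hom {F L M : Type*} [Field F] [Field L] [Algebra F L] [Field M] [IsAlgClosed M]
    [Algebra.IsAlgebraic F L] (ψ : F →+* M) :
    ∃ Φ : L →+* M, ∀ x, Φ (algebraMap F L x) = ψ x := by
  letI := ψ.toAlgebra
  exact ⟨(IsAlgClosed.lift : L →ₐ[F] M).toRingHom, fun x =>
    (IsAlgClosed.lift : L →ₐ[F] M).commutes x⟩

/-- extension of an endomorphism which raises the norm to a power -/
theorem ext_norm {F : Type u} [NontriviallyNormedField F] [CompleteSpace F]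
    [IsUltrametricDist F] (φ : F →+* F) (Θ : ℕ) (hΘ : 1 ≤ Θ) (hφ : ∀ x, ‖φ x‖ = ‖x‖ ^ Θ) :
    ∃ Φ : AlgebraicClosure F →+* AlgebraicClosure F,
      (∀ x, Φ (algebraMap F _ x) = algebraMap F _ (φ x)) ∧
      ∀ x, spectralNorm F (AlgebraicClosure F) (Φ x) =
        spectralNorm F (AlgebraicClosure F) x ^ Θ := by
  obtain ⟨Φ, hΦ⟩ := ext_hom (L := AlgebraicClosure F)
    ((algebraMap F (AlgebraicClosure F)).comp φ)
  refine ⟨Φ, hΦ, ?_⟩
  have hna := isNonarchimedean_spectralNorm (K := F) (L := AlgebraicClosure F)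
  letI hΩ : NormedField (AlgebraicClosure F) :=
    spectralNorm.normedField F (AlgebraicClosure F)
  have hnorm : ∀ x : AlgebraicClosure F, ‖x‖ = spectralNorm F (AlgebraicClosure F) x :=
    fun _ => rfl
  have hΘ0 : (Θ : ℝ) ≠ 0 := by
    have : Θ ≠ 0 := by omega
    exact_mod_cast this
  let f : AbsoluteValue (AlgebraicClosure F) ℝ :=
    { toFun := fun x => ‖Φ x‖ ^ ((Θ : ℝ)⁻¹)
      map_mul' := by
        intro x y
        rw [map_mul, norm_mul, Real.mul_rpow (norm_nonneg _) (norm_nonneg _)]
      nonneg' := fun x => Real.rpow_nonneg (norm_nonneg _) _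
      eq_zero' := by
        intro x
        rw [Real.rpow_eq_zero (norm_nonneg _) (inv_ne_zero hΘ0), norm_eq_zero,
          map_eq_zero]
      add_le' := by
        intro x y
        have h1 : ‖Φ (x + y)‖ ≤ max ‖Φ x‖ ‖Φ y‖ := by
          rw [map_add]
          exact hna (Φ x) (Φ y)
        have h2 : ‖Φ (x + y)‖ ^ ((Θ : ℝ)⁻¹) ≤ (max ‖Φ x‖ ‖Φ y‖) ^ ((Θ : ℝ)⁻¹) :=
          Real.rpow_le_rpow (norm_nonneg _) h1 (by positivity)
        have h3 : 0 ≤ ‖Φ x‖ ^ ((Θ : ℝ)⁻¹) := Real.rpow_nonneg (norm_nonneg _) _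
        have h4 : 0 ≤ ‖Φ y‖ ^ ((Θ : ℝ)⁻¹) := Real.rpow_nonneg (norm_nonneg _) _
        rcases max_choice ‖Φ x‖ ‖Φ y‖ with h | h
        · rw [h] at h2; linarith
        · rw [h] at h2; linarith }
  have hf : ∀ x : AlgebraicClosure F, f x = ‖Φ x‖ ^ ((Θ : ℝ)⁻¹) := fun _ => rfl
  have hext : ∀ x : F, f (algebraMap F (AlgebraicClosure F) x) = ‖x‖ := by
    intro x
    have h1 : ‖Φ (algebraMap F (AlgebraicClosure F) x)‖ = ‖x‖ ^ Θ := by
      rw [hΦ, hnorm, RingHom.comp_apply, spectralNorm_extends, hφ]
    rw [hf, h1, ← Real.rpow_natCast, ← Real.rpow_mul (norm_nonneg _), mul_inv_cancel₀ hΘ0,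
      Real.rpow_one]
  intro x
  have h1 := spectralNorm_unique_field_norm_ext hext x
  rw [← h1, hf, ← hnorm, ← Real.rpow_natCast, ← Real.rpow_mul (norm_nonneg _),
    inv_mul_cancel₀ hΘ0, Real.rpow_one]

theorem amb : Pool.Agent.Q41.SU.S_amb.{u} := by
  intro k _
  let a := av k
  have hnat : ∀ n : ℕ, a (n : RatFunc k) ≤ 1 := by
    intro n
    by_cases hn : (n : k) = 0
    · have h1 : ((n : ℕ) : RatFunc k) = algebraMap k (RatFunc k) (n : k) := by simp
      rw [h1, hn, map_zero, map_zero]
      exact zero_le_one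
    · have h1 : ((n : ℕ) : RatFunc k) = algebraMap k (RatFunc k) (n : k) := by simp
      rw [h1]
      exact (av_const hn).le
  haveI hu : IsUltrametricDist a.Completion := by
    rw [isUltrametricDist_iff_forall_norm_natCast_le_one]
    intro n
    have h1 : ((n : ℕ) : a.Completion) = ((n : WithAbs a) : a.Completion) := by
      have := map_natCast (UniformSpace.Completion.coeRingHom (α := WithAbs a)) n
      exact this.symm
    rw [h1, UniformSpace.Completion.norm_coe]
    exact hnat n
  have hcoe : ∀ x : RatFunc k, ‖((WithAbs.toAbs a x : WithAbs a) : a.Completion)‖ = a x := by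
    intro x
    rw [UniformSpace.Completion.norm_coe]
    rfl
  have haX : a RatFunc.X = Real.exp 1 := by
    rw [show a = av k from rfl, av_apply RatFunc.X_ne_zero, RatFunc.intDegree_X]
    simp
  have hnt : ∃ x : a.Completion, 1 < ‖x‖ := by
    refine ⟨((WithAbs.toAbs a RatFunc.X : WithAbs a) : a.Completion), ?_⟩
    rw [hcoe, haX]
    exact Real.one_lt_exp_iff.mpr one_pos
  letI : NontriviallyNormedField a.Completion :=
    { (inferInstance : NormedField a.Completion) with non_trivial := hnt }
  let Ω := AlgebraicClosure a.Completion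
  let i : RatFunc k →+* a.Completion := (UniformSpace.Completion.coeRingHom
    (α := WithAbs a)).comp (WithAbs.equiv a).symm.toRingHom
  have hi : ∀ x, ‖i x‖ = a x := hcoe
  letI hΩ : NormedField Ω := spectralNorm.normedField a.Completion Ω
  letI hA : Algebra k Ω := (((algebraMap a.Completion Ω).comp i).comp
    (algebraMap k (RatFunc k))).toAlgebra
  have hA' : ∀ c : k, algebraMap k Ω c = algebraMap a.Completion Ω (i (algebraMap k _ c)) :=
    fun _ => rfl
  have hn : ∀ x, ‖algebraMap a.Completion Ω (i x)‖ = a x := by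
    intro x
    have h1 := spectralNorm_extends (K := a.Completion) (L := Ω) (i x)
    rw [hi] at h1
    exact h1
  refine ⟨Ω, hΩ, ?_, inferInstance, hA, algebraMap a.Completion Ω (i RatFunc.X)⁻¹, ?_⟩
  · apply IsUltrametricDist.isUltrametricDist_of_isNonarchimedean_norm
    exact isNonarchimedean_spectralNorm (K := a.Completion) (L := Ω)
  · constructor
    · rw [map_inv₀, norm_inv, hn, haX, Real.exp_neg]
    · intro c hc
      rw [hA', hn]
      exact av_const hc
    · intro Θ hΘ c hc
      obtain ⟨φ, hφX, hφn⟩ := exists_sub (inv_ne_zero hc) hΘ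
      -- the endomorphism of `WithAbs a`
      let φ' : WithAbs a →+* WithAbs a := ((WithAbs.equiv a).symm.toRingHom.comp
        (φ : RatFunc k →+* RatFunc k)).comp (WithAbs.equiv a).toRingHom
      have hφ' : ∀ x : WithAbs a, ‖φ' x‖ = ‖x‖ ^ Θ := fun x => hφn ((WithAbs.equiv a) x)
      have hcont : Continuous φ' := by
        refine continuous_of_continuousAt_zero φ' ?_
        rw [ContinuousAt, map_zero, tendsto_zero_iff_norm_tendsto_zero]
        simp_rw [hφ']
        have h : Filter.Tendsto (fun x : WithAbs a => ‖x‖ ^ Θ) (nhds 0) (nhds (‖(0 : WithAbs a)‖ ^ Θ)) :=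
          (continuous_norm.pow Θ).continuousAt
        rw [norm_zero, zero_pow (by omega)] at h
        exact h
      let φ₁ : a.Completion →+* a.Completion := UniformSpace.Completion.mapRingHom φ' hcont
      have hφ₁ : ∀ x : WithAbs a, φ₁ (x : a.Completion) = ((φ' x : WithAbs a) : a.Completion) :=
        fun x => UniformSpace.Completion.mapRingHom_coe hcont x
      have hφ₁n : ∀ x : a.Completion, ‖φ₁ x‖ = ‖x‖ ^ Θ := by
        intro x
        refine UniformSpace.Completion.induction_on x ?_ ?_
        · refine isClosed_eq ?_ (continuous_norm.pow Θ)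
          exact continuous_norm.comp UniformSpace.Completion.continuous_map
        · intro y
          rw [hφ₁, UniformSpace.Completion.norm_coe, UniformSpace.Completion.norm_coe, hφ']
      have hφ₁i : ∀ x : RatFunc k, φ₁ (i x) = i (φ x) := fun x => hφ₁ _
      obtain ⟨Φ, hΦ1, hΦ2⟩ := ext_norm φ₁ Θ hΘ hφ₁n
      refine ⟨{ Φ with
        commutes' := ?_ }, ?_, ?_⟩
      · intro d
        show Φ (algebraMap k Ω d) = algebraMap k Ω d
        rw [hA', hΦ1, hφ₁i, AlgHom.commutes]
      · show Φ (algebraMap a.Completion Ω (i RatFunc.X)⁻¹) = _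
        rw [hΦ1, map_inv₀, hφ₁i, hφX, map_mul, map_pow, mul_inv, map_mul, hA']
        congr 1
        · rw [map_inv₀, map_inv₀, map_inv₀, map_inv₀, inv_inv]
        · rw [map_inv₀, map_inv₀, map_pow, inv_pow]
      · intro x
        exact hΦ2 x

end Pool.Agent.Q198.SU
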