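import Pool.Agent.Q41.SU.Stm2

/-! Project SU (helper41), job C11 (S_num). -/

set_option autoImplicit false

open Finset

namespace Pool.Agent.Q198.SU

theorem tri_le (m A : ℕ) : 2 * ∑ s ∈ range A, (m - s) ≤ m * (m + 1) := by
  induction m generalizing A with
  | zero => simp
  | succ m ih =>
    cases A with
    | zero => simp
    | succ A =>
      rw [sum_range_succ']
      have h := ih A
      have e : ∑ k ∈ range A, (m + 1 - (k + 1)) = ∑ k ∈ range A, (m - k) :=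
        sum_congr rfl fun k _ => by omega
      rw [e]
      simp only [Nat.sub_zero]
      nlinarith

theorem pyr_le (Θ j B : ℕ) :
    6 * ∑ r ∈ range B, (Θ * (j - r)) * (Θ * (j - r) + 1) ≤
      Θ ^ 2 * (j * (j + 1) * (2 * j + 1)) + 3 * Θ * (j * (j + 1)) := by
  induction j generalizing B with
  | zero => simp
  | succ j ih =>
    cases B with
    | zero => simp
    | succ B =>
      rw [sum_range_succ']
      have h := ih B
      have e : ∑ k ∈ range B, (Θ * (j + 1 - (k + 1))) * (Θ * (j + 1 - (k + 1)) + 1) =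
          ∑ k ∈ range B, (Θ * (j - k)) * (Θ * (j - k) + 1) :=
        sum_congr rfl fun k _ => by
          have : j + 1 - (k + 1) = j - k := by omega
          rw [this]
      rw [e]
      simp only [Nat.sub_zero]
      nlinarith

/-- threshold bound -/
theorem thr (Θ a b h : ℕ) (T : Finset (Pool.Agent.Q41.SU.II a b)) :
    h * T.card ≤ ∑ x ∈ T, (1 * (x.1 : ℕ) + Θ * (x.2 : ℕ)) +
      ∑ r ∈ range (b + 1), ∑ s ∈ range (a + 1), ((h - Θ * r) - s) := by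
  have h1 : h * T.card = ∑ _x ∈ T, h := by simp [mul_comm]
  have h2 : ∑ x ∈ T, (h - (1 * (x.1 : ℕ) + Θ * (x.2 : ℕ))) ≤
      ∑ r ∈ range (b + 1), ∑ s ∈ range (a + 1), ((h - Θ * r) - s) := by
    refine (sum_le_sum_of_subset (subset_univ T)).trans ?_
    rw [← univ_product_univ, sum_product_right, Finset.sum_range]
    refine sum_le_sum fun r _ => ?_
    rw [Finset.sum_range]
    refine sum_le_sum fun s _ => ?_
    dsimp only
    omega
  rw [h1]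
  calc ∑ _x ∈ T, h ≤ ∑ x ∈ T, ((1 * (x.1 : ℕ) + Θ * (x.2 : ℕ)) +
        (h - (1 * (x.1 : ℕ) + Θ * (x.2 : ℕ)))) := sum_le_sum fun x _ => by omega
    _ = _ := sum_add_distrib
    _ ≤ _ := by omega

theorem thr_small (Θ a b m : ℕ) (hm : m ≤ Θ) (T : Finset (Pool.Agent.Q41.SU.II a b)) :
    2 * (m * T.card) ≤ 2 * ∑ x ∈ T, (1 * (x.1 : ℕ) + Θ * (x.2 : ℕ)) + m * (m + 1) := by
  have h := thr Θ a b m T
  have h2 : ∑ r ∈ range (b + 1), ∑ s ∈ range (a + 1), ((m - Θ * r) - s) =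
      ∑ s ∈ range (a + 1), (m - s) := by
    rw [sum_range_succ']
    have : ∑ k ∈ range b, ∑ s ∈ range (a + 1), (m - Θ * (k + 1) - s) = 0 := by
      refine sum_eq_zero fun k _ => sum_eq_zero fun s _ => ?_
      have : m ≤ Θ * (k + 1) := hm.trans (Nat.le_mul_of_pos_right _ (Nat.succ_pos k))
      omega
    rw [this]
    simp
  rw [h2] at h
  have h3 := tri_le m (a + 1)
  omega

theorem thr_big (Θ a b j : ℕ) (T : Finset (Pool.Agent.Q41.SU.II a b)) :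
    12 * (Θ * j * T.card) ≤ 12 * ∑ x ∈ T, (1 * (x.1 : ℕ) + Θ * (x.2 : ℕ)) +
      (Θ ^ 2 * (j * (j + 1) * (2 * j + 1)) + 3 * Θ * (j * (j + 1))) := by
  have h := thr Θ a b (Θ * j) T
  have h2 : 2 * ∑ r ∈ range (b + 1), ∑ s ∈ range (a + 1), ((Θ * j - Θ * r) - s) ≤
      ∑ r ∈ range (b + 1), (Θ * (j - r)) * (Θ * (j - r) + 1) := by
    rw [mul_sum]
    refine sum_le_sum fun r _ => ?_
    rw [← Nat.mul_sub]
    exact tri_le _ _
  have h3 := pyr_le Θ j (b + 1)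
  omega

/-- the real inequality -/
theorem real_ineq (y b z : ℝ) (hy : 69 / 10 ≤ y) (hzy : z ≤ y) (hyz : y ≤ z + 1)
    (hb : 100 ≤ b) (hyb : y ≤ b + 1) :
    49 / 96 * y ^ 2 / b + y / 10 ≤ (z - 1) - ((z - 1) * z * (z + 1)) / (3 * y ^ 2) := by
  have hy0 : 0 < y := by linarith
  have hb0 : 0 < b := by linarith
  have h1 : 2 / 3 * y - 1 - 2 / (3 * y) ≤ (z - 1) - ((z - 1) * z * (z + 1)) / (3 * y ^ 2) := by
    have e : (z - 1) - ((z - 1) * z * (z + 1)) / (3 * y ^ 2) - (2 / 3 * y - 1 - 2 / (3 * y)) =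
        (z - y + 1) * (3 * y ^ 2 - (z ^ 2 + z * (y - 1) + (y - 1) ^ 2 - 1)) / (3 * y ^ 2) := by
      field_simp
      ring
    have h2 : 0 ≤ (z - y + 1) * (3 * y ^ 2 - (z ^ 2 + z * (y - 1) + (y - 1) ^ 2 - 1)) := by
      refine mul_nonneg (by linarith) ?_
      nlinarith
    have h3 : 0 ≤ (z - y + 1) * (3 * y ^ 2 - (z ^ 2 + z * (y - 1) + (y - 1) ^ 2 - 1)) /
        (3 * y ^ 2) := div_nonneg h2 (by positivity)
    linarith
  refine le_trans ?_ h1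
  have h4 : 2 / (3 * y) ≤ 1 / 10 := by
    rw [div_le_div_iff₀ (by positivity) (by norm_num)]
    linarith
  by_cases hc : y ≤ b / 2
  · have h5 : 49 / 96 * y ^ 2 / b ≤ 49 / 192 * y := by
      rw [div_le_iff₀ hb0]
      nlinarith
    linarith
  · push Not at hc
    have h5 : 49 / 96 * y ^ 2 / b ≤ 49 / 96 * (101 / 100) * y := by
      rw [div_le_iff₀ hb0]
      have : y ≤ 101 / 100 * b := by linarith
      nlinarith
    linarith

theorem main_ineq (Θ ν b n : ℕ) (hΘ : 1 ≤ Θ) (hν : 1 ≤ ν) (hb : 100 * Θ * ν ^ 2 ≤ b)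
    (hn : 2 ≤ n) (hN : 2 * n ≤ (Θ * b + 1) * (b + 1))
    (T : Finset (Pool.Agent.Q41.SU.II (Θ * b) b)) (hT : T.card = n) :
    (49 : ℝ) / 48 * (n * (n - 1)) / b + Θ * ν * min (2 * (n : ℝ)) (n * (n - 1) / b) ≤
      ((∑ x ∈ T, (1 * (x.1 : ℕ) + Θ * (x.2 : ℕ)) : ℕ) : ℝ) := by
  obtain ⟨m, rfl⟩ : ∃ m, n = m + 1 := ⟨n - 1, by omega⟩
  set W := ∑ x ∈ T, (1 * (x.1 : ℕ) + Θ * (x.2 : ℕ)) with hW
  have hΘr : (1 : ℝ) ≤ Θ := by exact_mod_cast hΘ
  have hνr : (1 : ℝ) ≤ ν := by exact_mod_cast hν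
  have hbr : 100 * (Θ : ℝ) * (ν : ℝ) ^ 2 ≤ b := by exact_mod_cast hb
  have hmr : (1 : ℝ) ≤ m := by
    have : 1 ≤ m := by omega
    exact_mod_cast this
  have hνν : (ν : ℝ) ≤ (ν : ℝ) ^ 2 := by nlinarith
  have hΘν : (1 : ℝ) ≤ Θ * ν := by nlinarith
  have hb1 : 100 * (Θ * ν : ℝ) ≤ b := by nlinarith
  have hb100 : (100 : ℝ) ≤ b := by nlinarith
  have hb0 : (0 : ℝ) < b := by linarith
  have ecast : ((m + 1 : ℕ) : ℝ) - 1 = m := by push_cast; ring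
  rw [ecast]
  push_cast
  -- the crude bound of the right side
  have hcrude : (49 : ℝ) / 48 * ((m + 1) * m) / b +
      Θ * ν * min (2 * ((m : ℝ) + 1)) ((m + 1) * m / b) ≤ 97 / 4800 * ((m + 1) * m) := by
    have h1 : Θ * ν * min (2 * ((m : ℝ) + 1)) ((m + 1) * m / b) ≤
        Θ * ν * ((m + 1) * m / b) :=
      mul_le_mul_of_nonneg_left (min_le_right _ _) (by positivity)
    have h2 : (Θ : ℝ) * ν * ((m + 1) * m / b) ≤ 1 / 100 * ((m + 1) * m) := by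
      rw [← mul_div_assoc, div_le_iff₀ hb0]
      have : 0 ≤ ((m : ℝ) + 1) * m := by positivity
      nlinarith
    have h3 : (49 : ℝ) / 48 * ((m + 1) * m) / b ≤ 49 / 4800 * ((m + 1) * m) := by
      rw [div_le_iff₀ hb0]
      have : 0 ≤ ((m : ℝ) + 1) * m := by positivity
      nlinarith
    linarith
  by_cases hc1 : m ≤ Θ
  · have h1 := thr_small Θ (Θ * b) b m hc1 T
    rw [hT] at h1
    have h2 : 2 * ((m : ℝ) * (m + 1)) ≤ 2 * (W : ℝ) + m * (m + 1) := by exact_mod_cast h1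
    have h3 : 0 ≤ ((m : ℝ) + 1) * m := by positivity
    nlinarith
  push Not at hc1
  have hc1r : (Θ : ℝ) + 1 ≤ m := by exact_mod_cast hc1
  by_cases hc2 : m ≤ 24 * Θ
  · have h1 := thr_big Θ (Θ * b) b 1 T
    rw [hT] at h1
    have h2 : 12 * ((Θ : ℝ) * 1 * (m + 1)) ≤ 12 * (W : ℝ) +
        ((Θ : ℝ) ^ 2 * (1 * (1 + 1) * (2 * 1 + 1)) + 3 * Θ * (1 * (1 + 1))) := by
      exact_mod_cast h1
    have hc2r : (m : ℝ) ≤ 24 * Θ := by exact_mod_cast hc2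
    nlinarith
  push Not at hc2
  have hc2r : (24 : ℝ) * Θ < m := by exact_mod_cast hc2
  set y := Real.sqrt (2 * m / Θ) with hy
  have hΘ0 : (0 : ℝ) < Θ := by linarith
  have hysq : y ^ 2 = 2 * m / Θ := Real.sq_sqrt (by positivity)
  have hysq2 : Θ * y ^ 2 = 2 * m := by
    rw [hysq]
    field_simp
  have hy0 : 0 ≤ y := Real.sqrt_nonneg _
  have hy69 : 69 / 10 ≤ y := by
    apply Real.le_sqrt_of_sq_le
    rw [le_div_iff₀ hΘ0]
    nlinarith
  have hyb : y ≤ b + 1 := by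
    apply Real.sqrt_le_iff.2
    refine ⟨by linarith, ?_⟩
    rw [div_le_iff₀ hΘ0]
    have h1 : 2 * ((m : ℝ) + 1) ≤ (Θ * b + 1) * (b + 1) := by exact_mod_cast hN
    nlinarith
  -- second term
  have hsec : (ν : ℝ) * min (2 * ((m : ℝ) + 1)) ((m + 1) * m / b) ≤ (m + 1) * (y / 10) := by
    have h0 : 0 ≤ min (2 * ((m : ℝ) + 1)) ((m + 1) * m / b) :=
      le_min (by positivity) (by positivity)
    have h1 : (min (2 * ((m : ℝ) + 1)) ((m + 1) * m / b)) ^ 2 ≤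
        (2 * ((m : ℝ) + 1)) * ((m + 1) * m / b) := by
      rw [sq]
      exact mul_le_mul (min_le_left _ _) (min_le_right _ _) h0 (by positivity)
    apply le_of_sq_le_sq _ (by positivity)
    rw [mul_pow]
    calc (ν : ℝ) ^ 2 * (min (2 * ((m : ℝ) + 1)) ((m + 1) * m / b)) ^ 2
        ≤ (ν : ℝ) ^ 2 * ((2 * ((m : ℝ) + 1)) * ((m + 1) * m / b)) :=
          mul_le_mul_of_nonneg_left h1 (by positivity)
      _ = (100 * Θ * ν ^ 2) * (2 * m * (m + 1) ^ 2) / (100 * Θ * b) := by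
          field_simp
      _ ≤ b * (2 * m * (m + 1) ^ 2) / (100 * Θ * b) := by
          gcongr
      _ = (m + 1) ^ 2 * (2 * m / Θ) / 100 := by
          field_simp
      _ = ((m + 1) * (y / 10)) ^ 2 := by
          rw [← hysq]; ring
  obtain ⟨j, hj⟩ : ∃ j, ⌊y⌋₊ = j + 1 := by
    have : 1 ≤ ⌊y⌋₊ := Nat.le_floor (by push_cast; linarith)
    exact ⟨⌊y⌋₊ - 1, by omega⟩
  have hz1 : ((j : ℝ) + 1) ≤ y := by
    have := Nat.floor_le hy0
    rw [hj] at this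
    exact_mod_cast this
  have hz2 : y ≤ (j : ℝ) + 1 + 1 := by
    have := Nat.lt_floor_add_one y
    rw [hj] at this
    push_cast at this
    linarith
  have h1 := thr_big Θ (Θ * b) b j T
  rw [hT] at h1
  have h2 : 12 * ((Θ : ℝ) * j * (m + 1)) ≤ 12 * (W : ℝ) +
      ((Θ : ℝ) ^ 2 * (j * (j + 1) * (2 * j + 1)) + 3 * Θ * (j * (j + 1))) := by
    exact_mod_cast h1
  have h3 := real_ineq y b (j + 1) hy69 hz1 (by linarith) hb100 hyb
  have hy2 : 0 < y ^ 2 := by positivity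
  -- bound of the subtracted term
  have h4 : (Θ : ℝ) ^ 2 * (j * (j + 1) * (2 * j + 1)) + 3 * Θ * (j * (j + 1)) ≤
      2 * (Θ : ℝ) ^ 2 * (j * (j + 1) * (j + 2)) := by
    have : 0 ≤ (j : ℝ) * (j + 1) := by positivity
    have h5 : 3 * (Θ : ℝ) ≤ 3 * Θ ^ 2 := by nlinarith
    nlinarith
  have h5 : (Θ : ℝ) ^ 2 * (j * (j + 1) * (j + 2)) / 6 ≤
      Θ * (m + 1) * (((j : ℝ) + 1 - 1) * (j + 1) * (j + 1 + 1) / (3 * y ^ 2)) := by
    have e : Θ * ((m : ℝ) + 1) * (((j : ℝ) + 1 - 1) * (j + 1) * (j + 1 + 1) / (3 * y ^ 2)) =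
        Θ * ((m : ℝ) + 1) * (j * (j + 1) * (j + 2)) / (3 * y ^ 2) := by
      rw [mul_div_assoc]
      ring
    rw [e, div_le_div_iff₀ (by norm_num) (by positivity)]
    have h6 : (Θ : ℝ) ^ 2 * (3 * y ^ 2) = 6 * Θ * m := by nlinarith
    have h7 : 0 ≤ (j : ℝ) * (j + 1) * (j + 2) := by positivity
    calc (Θ : ℝ) ^ 2 * (j * (j + 1) * (j + 2)) * (3 * y ^ 2)
        = ((Θ : ℝ) ^ 2 * (3 * y ^ 2)) * (j * (j + 1) * (j + 2)) := by ring
      _ = 6 * (Θ : ℝ) * m * ((j : ℝ) * (j + 1) * (j + 2)) := by rw [h6]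
      _ ≤ Θ * ((m : ℝ) + 1) * (j * (j + 1) * (j + 2)) * 6 := by
          have : (0 : ℝ) ≤ 6 * Θ * (j * (j + 1) * (j + 2)) := by positivity
          linarith
  have hfst : (49 : ℝ) / 48 * ((m + 1) * m) / b =
      Θ * (m + 1) * (49 / 96 * y ^ 2 / b) := by
    rw [hysq]
    field_simp
    ring
  have hfin : Θ * ((m : ℝ) + 1) * (49 / 96 * y ^ 2 / b + y / 10) ≤
      Θ * ((m : ℝ) + 1) * (((j : ℝ) + 1 - 1) -
        (((j : ℝ) + 1 - 1) * (j + 1) * (j + 1 + 1)) / (3 * y ^ 2)) :=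
    mul_le_mul_of_nonneg_left h3 (by positivity)
  have hsec2 : Θ * ν * min (2 * ((m : ℝ) + 1)) ((m + 1) * m / b) ≤
      Θ * ((m : ℝ) + 1) * (y / 10) := by
    calc Θ * ν * min (2 * ((m : ℝ) + 1)) ((m + 1) * m / b)
        = Θ * (ν * min (2 * ((m : ℝ) + 1)) ((m + 1) * m / b)) := by ring
      _ ≤ Θ * ((m + 1) * (y / 10)) := mul_le_mul_of_nonneg_left hsec hΘ0.le
      _ = _ := by ring
  rw [hfst]
  have e2 : Θ * ((m : ℝ) + 1) * (((j : ℝ) + 1 - 1) -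
        (((j : ℝ) + 1 - 1) * (j + 1) * (j + 1 + 1)) / (3 * y ^ 2)) =
      Θ * j * (m + 1) - Θ * (m + 1) *
        (((j : ℝ) + 1 - 1) * (j + 1) * (j + 1 + 1) / (3 * y ^ 2)) := by ring
  rw [e2] at hfin
  have e3 : Θ * ((m : ℝ) + 1) * (49 / 96 * y ^ 2 / b + y / 10) =
      Θ * ((m : ℝ) + 1) * (49 / 96 * y ^ 2 / b) + Θ * ((m : ℝ) + 1) * (y / 10) := by ring
  rw [e3] at hfin
  linarith

theorem num : Pool.Agent.Q41.SU.S_num := by
  intro Θ ν b n hΘ hν hb hn hN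
  have hne : {m : ℕ | ∃ T : Finset (Pool.Agent.Q41.SU.II (Θ * b) b), T.card = n ∧
      m = ∑ x ∈ T, (1 * (x.1 : ℕ) + Θ * (x.2 : ℕ))}.Nonempty := by
    have hcard : n ≤ (univ : Finset (Pool.Agent.Q41.SU.II (Θ * b) b)).card := by
      rw [card_univ, Fintype.card_prod, Fintype.card_fin, Fintype.card_fin]
      omega
    obtain ⟨T, _, hT⟩ := exists_subset_card_eq hcard
    exact ⟨_, T, hT, rfl⟩
  obtain ⟨T, hT, hW⟩ := Nat.sInf_mem hne
  have h := main_ineq Θ ν b n hΘ hν hb hn hN T hT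
  unfold Pool.Agent.Q41.SU.phi
  rw [hW]
  exact h

end Pool.Agent.Q198.SU
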